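import Pool.Agent.H4.EVO.Fin

/-!
# Non-nilpotent complex evolution algebras with condition `P` (full answer to Q1)

The proof is in `Pool.Agent.H16.EvoProof`.
-/

set_option autoImplicit false

namespace Pool.Agent.Results.MP_fa30b9_al.Classification

open Pool.H4.EVO

/-- **Full answer to Q1 (it is true).** For every `n ≥ 1`:
* every `n`-dimensional non-nilpotent complex evolution algebra with condition `P` is isomorphic to
  `ES_1 ⊕ ℂ^(n-1)`, or to `ES_1 ⊕ U ⊕ ℂ^(n-s-1)` for some `2 ≤ s ≤ n-1` and `U ∈ ZN^s`;
* no algebra of the first kind is isomorphic to one of the second kind, and two algebras of the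
  second kind, with data `(s, U)` and `(s', U')`, are isomorphic only if `s = s'` and `U` is
  isomorphic to `U'`. -/
theorem result : ∀ n, 1 ≤ n → Complete n ∧ Distinct n := fun n _ => main n

end Pool.Agent.Results.MP_fa30b9_al.Classification
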